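import Pool.Agent.MP_7b45f6_mp.H32.Spec

/-!
# Row MERGE: from single lists to systems
-/

set_option autoImplicit false

namespace Pool.Agent.MP_7b45f6_mp.H32

open Classical Filter Topology

namespace Merge

/-- The outer list of a merged list. -/
def unA (m r : ℕ) (c : List P) : List P := c.take m ++ c.drop (m + r)

/-- The inner list of a merged list. -/
def unU (m r s : ℕ) (c : List P) : List P := ((c.drop m).take r).rotate s

/-- Decoding of a merged system. -/
def dec (q : ℕ × ℕ × ℕ × ℕ) (y : Sy) : Sy :=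
  match q with
  | (0, _, _, _) => y
  | (1, m, r, s) => (unA m r y.1, unU m r s y.1 :: y.2)
  | (i + 2, m, r, s) => (y.1, unU m r s (y.2.getD i []) ::
      (y.2.take i ++ unA m r (y.2.getD i []) :: y.2.drop (i + 1)))

theorem rot {u1 u2 : List P} (y : P) : jn (y :: u2 ++ u1) ≤ jn (u1 ++ y :: u2) + 1 ∧
    tot Finset.univ (y :: u2 ++ u1) = tot Finset.univ (u1 ++ y :: u2) := by
  by_cases h : u1 = []
  · subst h
    simp
  · refine ⟨?_, tot_rotate h (by simp)⟩
    have h1 := cs_append_ge jmp u1 (y :: u2)
    have h2 := jmp_le (lt (y :: u2)) (hd u1)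
    unfold jn
    rw [cs_append jmp (by simp) h]
    omega

theorem glue {A v : List P} (a2 : List P) (hA : A ≠ []) (hv : v ≠ []) (h : Adj (lt A) (hd v)) :
    jn (A ++ v ++ a2) ≤ jn (A ++ a2) + jn v + 1 ∧
      ∀ I, tot I (A ++ v ++ a2) ≤ tot I (A ++ a2) + tot Finset.univ v + 2 := by
  have h1 : d1 (lt A) (hd v) = 1 := h
  have h2 : d1 (hd v) (lt A) = 1 := h.symm
  by_cases h0 : a2 = []
  · subst h0
    simp only [List.append_nil]
    refine ⟨?_, fun I => ?_⟩
    · unfold jn
      rw [cs_append jmp hA hv, jmp_adj h]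
      omega
    · have h3 := dI_tri I (lt v) (hd v) (hd A)
      have h4 := dI_tri I (hd v) (lt A) (hd A)
      have h5 := dI_le I (lt v) (hd v)
      have h6 := dI_le I (hd v) (lt A)
      simp only [tot, len, cs_append d1 hA hv, hd_append hA, lt_append _ hv, dI_univ]
      omega
  · have hAv : A ++ v ≠ [] := by simp [hA]
    refine ⟨?_, fun I => ?_⟩
    · have h3 := cs_append_ge jmp A a2
      have h4 := jmp_le (lt (A ++ v)) (hd a2)
      unfold jn
      rw [cs_append jmp hAv h0, cs_append jmp hA hv, jmp_adj h]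
      omega
    · have h3 := d1_tri (lt v) (hd v) (hd a2)
      have h4 := d1_tri (hd v) (lt A) (hd a2)
      simp only [tot, len, cs_append d1 hAv h0, cs_append d1 hA hv, cs_append d1 hA h0,
        hd_append hAv, hd_append hA, lt_append _ hv, lt_append _ h0, dI_univ]
      omega

theorem join {a u : List P} {x y : P} (hx : x ∈ a) (hy : y ∈ u) (h : Adj x y) :
    ∃ (c : List P) (m s : ℕ), m ≤ a.length ∧ s ≤ u.length ∧ c.Perm (a ++ u) ∧
      jn c ≤ jn a + jn u + 2 ∧ (∀ I, tot I c ≤ tot I a + tot Finset.univ u + 2) ∧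
      unA m u.length c = a ∧ unU m u.length s c = u := by
  obtain ⟨a1, a2, rfl⟩ := List.append_of_mem hx
  obtain ⟨u1, u2, rfl⟩ := List.append_of_mem hy
  have e : a1 ++ x :: a2 = (a1 ++ [x]) ++ a2 := by simp
  have hl : (u1 ++ y :: u2).length = (y :: u2 ++ u1).length := by
    simp only [List.length_append, List.length_cons]
    omega
  obtain ⟨r1, r2⟩ := rot (u1 := u1) (u2 := u2) y
  obtain ⟨g1, g2⟩ := glue (A := a1 ++ [x]) (v := y :: u2 ++ u1) a2 (by simp) (by simp)
    (by simpa using h)
  rw [e]
  generalize a1 ++ [x] = A at *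
  refine ⟨A ++ (y :: u2 ++ u1) ++ a2, A.length, (y :: u2).length, by simp, ?_, ?_, by omega,
    fun I => ?_, ?_, ?_⟩
  · simp only [List.length_append, List.length_cons]
    omega
  · rw [List.append_assoc, List.append_assoc A]
    exact List.Perm.append_left _ (List.perm_append_comm.trans
      (List.Perm.append_left _ List.perm_append_comm))
  · have := g2 I
    omega
  · rw [hl]
    generalize y :: u2 ++ u1 = v
    unfold unA
    rw [← List.length_append, List.drop_left, List.append_assoc, List.take_left]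
  · rw [hl]
    unfold unU
    rw [List.append_assoc, List.drop_left, List.take_left, List.rotate_append_length_eq]

theorem es_le (θ : Par) (I : Finset (Fin 3)) {x y : Sy} (hp : (allp y).Perm (allp x))
    (hs : stot I y ≤ stot I x + 2) : es θ I x ≤ Real.exp (2 * kap θ) * es θ I y := by
  unfold es
  rw [← Real.exp_add, Real.exp_le_exp, List.toFinset_eq_of_perm _ _ hp, hp.length_eq]
  have h1 : (stot I y : ℝ) ≤ stot I x + 2 := by exact_mod_cast hs
  have h2 := kap_nonneg θ
  nlinarith

theorem mem_of {I : Finset (Fin 3)} {k j M M' : ℕ} {R R' : ℝ} {x y : Sy}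
    (hx : x ∈ Sys I (k + 1) j M R) (hM : M + 2 ≤ M') (hR : R + 2 ≤ R')
    (hp : (allp y).Perm (allp x)) (hk : y.2.length ≤ k) (hj : sjn y ≤ sjn x + 2)
    (hs : stot I y ≤ stot I x + 2) : y ∈ Sys I k (j + 2) M' R' := by
  obtain ⟨h1, -, h3, h4, h5⟩ := hx
  have h6 : bx (allp y) ≤ bx (allp x) := bx_mono fun p hp' => hp.subset hp'
  have h7 : (stot I y : ℝ) ≤ stot I x + 2 := by exact_mod_cast hs
  refine ⟨h1.perm hp, hk, by omega, by omega, ?_⟩
  rw [hp.length_eq]
  linarith

/-- Systems whose first closed list does not touch the rest. -/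
def Apart : Set Sy := {x | ∃ u L, x.2 = u :: L ∧ ∀ p ∈ allp (x.1, L), ∀ q ∈ u, ¬ Adj p q}

theorem len_le {I : Finset (Fin 3)} {w : List P} (h : w.Nodup) : w.length ≤ tot I w + 1 := by
  have := length_le_len h
  unfold tot
  omega

theorem touch (θ : Par) {I : Finset (Fin 3)} {k j M M' : ℕ} {R R' : ℝ} {x : Sy}
    (hx : x ∈ Sys I (k + 1) j M R) (hM : M + 2 ≤ M') (hR : R + 2 ≤ R') (hA : x ∉ Apart) :
    ∃ y ∈ Sys I k (j + 2) M' R', (∃ q ∈ Finset.range (k + 3) ×ˢ Finset.range (M + 2) ×ˢ
      Finset.range (M + 2) ×ˢ Finset.range (M + 2), x = dec q y) ∧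
      es θ I x ≤ Real.exp (2 * kap θ) * es θ I y := by
  obtain ⟨a, l⟩ := x
  cases l with
  | nil =>
    exact ⟨(a, []), mem_of hx hM hR (List.Perm.refl _) (by simp) (by omega) (by omega),
      ⟨(0, 0, 0, 0), by simp, rfl⟩, es_le θ I (List.Perm.refl _) (by omega)⟩
  | cons u L =>
    have hA' : ∃ p ∈ allp (a, L), ∃ q ∈ u, Adj p q := by
      by_contra h
      push Not at h
      exact hA ⟨u, L, rfl, h⟩
    obtain ⟨p, hp, q, hq, hpq⟩ := hA'
    have hn : (a ++ (u ++ L.flatten)).Nodup := by simpa [allp] using hx.1.1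
    have hk : L.length ≤ k := by simpa using hx.2.1
    have hs : tot I a + (tot Finset.univ u + (L.map (tot Finset.univ)).sum) ≤ M := by
      have := hx.2.2.2.1
      simp only [stot, List.map_cons, List.sum_cons] at this
      omega
    have hu := len_le (I := Finset.univ) hn.of_append_right.of_append_left
    rcases List.mem_append.1 hp with hp | hp
    · obtain ⟨c, m, s, h1, h2, h3, h4, h5, h6, h7⟩ := join (a := a) hp hq hpq
      have ha := len_le (I := I) hn.of_append_left
      have h8 : (allp (c, L)).Perm (allp (a, u :: L)) := by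
        simp only [allp, List.flatten_cons, ← List.append_assoc]
        exact h3.append_right _
      have h9 : stot I (c, L) ≤ stot I (a, u :: L) + 2 := by
        have := h5 I
        simp only [stot, List.map_cons, List.sum_cons]
        omega
      refine ⟨(c, L), mem_of hx hM hR h8 hk ?_ h9, ⟨(1, m, u.length, s), ?_, ?_⟩, es_le θ I h8 h9⟩
      · simp only [sjn, List.map_cons, List.sum_cons]
        omega
      · simp only [Finset.mem_product, Finset.mem_range]
        omega
      · simp only [dec]
        rw [h6, h7]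
    · obtain ⟨b, hb, hpb⟩ := List.mem_flatten.1 hp
      obtain ⟨L1, L2, rfl⟩ := List.append_of_mem hb
      obtain ⟨c, m, s, h1, h2, h3, h4, h5, h6, h7⟩ := join hpb hq hpq
      have hb' : b.length ≤ tot Finset.univ b + 1 := by
        refine len_le (hn.of_append_right.of_append_right.sublist ?_)
        exact List.sublist_flatten_of_mem hb
      have h8 : (allp (a, L1 ++ c :: L2)).Perm (allp (a, u :: (L1 ++ b :: L2))) := by
        simp only [allp, List.flatten_cons, List.flatten_append]
        refine List.Perm.append_left _ ?_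
        refine (List.Perm.append_left _ (h3.append_right _)).trans ?_
        rw [List.append_assoc b, ← List.append_assoc, ← List.append_assoc L1.flatten]
        exact List.perm_append_comm_assoc _ _ _
      have h9 : stot I (a, L1 ++ c :: L2) ≤ stot I (a, u :: (L1 ++ b :: L2)) + 2 := by
        have := h5 Finset.univ
        simp only [stot, List.map_cons, List.sum_cons, List.map_append, List.sum_append]
        omega
      simp only [List.map_cons, List.sum_cons, List.map_append, List.sum_append,
        List.length_append, List.length_cons] at hs hk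
      refine ⟨(a, L1 ++ c :: L2), mem_of hx hM hR h8 (by simpa using hk) ?_ h9,
        ⟨(L1.length + 2, m, u.length, s), ?_, ?_⟩, es_le θ I h8 h9⟩
      · simp only [sjn, List.map_cons, List.sum_cons, List.map_append, List.sum_append]
        omega
      · simp only [Finset.mem_product, Finset.mem_range]
        omega
      · have e1 : (L1 ++ c :: L2).getD L1.length [] = c := by simp
        have e2 : (L1 ++ c :: L2).drop (L1.length + 1) = L2 := by simp
        simp only [dec]
        rw [e1, e2, h6, h7, List.take_left]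

theorem apart (θ : Par) {I : Finset (Fin 3)} {k j M M' : ℕ} {R R' R'' : ℝ} {x : Sy}
    (hx : x ∈ Sys I (k + 1) j M R) (hM : M + 2 ≤ M') (hR : R + 2 ≤ R') (hR' : (M : ℝ) ≤ R'')
    (hA : x ∈ Apart) :
    ∃ y ∈ Sys I k (j + 2) M' R' ×ˢ Sing Finset.univ j M R'', x = (y.1.1, y.2 :: y.1.2) ∧
      es θ I x ≤ 1 * (es θ I y.1 * ep θ Finset.univ y.2) := by
  obtain ⟨a, l⟩ := x
  obtain ⟨u, L, rfl, hA⟩ := hA
  obtain ⟨h1, h2, h3, h4, h5⟩ := hx
  have hp : (allp (a, u :: L)).Perm (allp (a, L) ++ u) := by
    simp only [allp, List.flatten_cons, List.append_assoc]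
    exact List.Perm.append_left _ List.perm_append_comm
  have hg : Good (allp (a, L) ++ u) := h1.perm hp.symm
  have g1 : Good (allp (a, L)) := hg.sub (List.sublist_append_left _ _)
  have g2 : Good u := hg.sub (List.sublist_append_right _ _)
  have b1 : bx (allp (a, L)) ≤ bx (allp (a, u :: L)) :=
    bx_mono fun p h => hp.symm.subset (List.mem_append_left _ h)
  have b2 : bx u ≤ bx (allp (a, u :: L)) :=
    bx_mono fun p h => hp.symm.subset (List.mem_append_right _ h)
  have s1 : stot I (a, u :: L) = stot I (a, L) + tot Finset.univ u := by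
    simp only [stot, List.map_cons, List.sum_cons]
    omega
  have s2 : sjn (a, u :: L) = sjn (a, L) + jn u := by
    simp only [sjn, List.map_cons, List.sum_cons]
    omega
  have s3 : (allp (a, u :: L)).length = (allp (a, L)).length + u.length := by
    rw [hp.length_eq, List.length_append]
  have s4 : (u.length : ℝ) ≤ tot Finset.univ u + 1 := by exact_mod_cast len_le g2.1
  have s5 : (tot Finset.univ u : ℝ) ≤ M := by exact_mod_cast (by omega : tot Finset.univ u ≤ M)
  have s6 : (0 : ℝ) ≤ u.length := by positivity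
  refine ⟨((a, L), u), ⟨⟨g1, by simpa using h2, by simp only; omega, by simp only; omega, ?_⟩,
    g2, by simp only; omega, by unfold sz; simp only; omega, by simp only; linarith⟩, rfl, ?_⟩
  · rw [s1, s3] at h5
    push_cast at h5
    simp only
    linarith
  · have h6 := phi_union θ (V := (allp (a, L)).toFinset) (W := u.toFinset) ∅
      (List.disjoint_toFinset_iff_disjoint.2 (List.disjoint_of_nodup_append hg.1))
      fun p hp q hq h => absurd h (hA p (List.mem_toFinset.1 hp) q (List.mem_toFinset.1 hq))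
    simp only [Finset.card_empty, Nat.cast_zero, mul_zero, abs_nonpos_iff] at h6
    unfold es ep pot
    rw [one_mul, ← Real.exp_add, Real.exp_le_exp, List.toFinset_eq_of_perm _ _ hp,
      List.toFinset_append, s1, s3]
    push_cast
    linarith

theorem base (θ : Par) (I : Finset (Fin 3)) {j M : ℕ} {R G : ℝ}
    (h : Bd (Sing I j M R) (ep θ I) G) : Bd (Sys I 0 j M R) (es θ I) G := by
  have := h.transfer (X := Sys I 0 j M R) (f := es θ I) (fan_fun fun w : List P => ((w, []) : Sy))
    zero_le_one (fun w => (ep_pos θ I w).le) fun x hx => by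
      obtain ⟨a, l⟩ := x
      obtain ⟨h1, h2, h3, h4, h5⟩ := hx
      obtain rfl : l = [] := List.eq_nil_of_length_eq_zero (Nat.le_zero.1 h2)
      simp only [allp, stot, sjn, List.flatten_nil, List.append_nil, List.map_nil, List.sum_nil,
        add_zero] at h1 h3 h4 h5
      refine ⟨a, ⟨h1, h3, h4, h5⟩, rfl, le_of_eq ?_⟩
      simp [es, ep, pot, allp, stot]
  simpa using this

theorem step (θ : Par) (I : Finset (Fin 3)) {k j M M' : ℕ} {R R' R'' G G' : ℝ}
    (hM : M + 2 ≤ M') (hR : R + 2 ≤ R') (hR' : (M : ℝ) ≤ R'')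
    (h : Bd (Sys I k (j + 2) M' R') (es θ I) G)
    (h' : Bd (Sing Finset.univ j M R'') (ep θ Finset.univ) G') :
    Bd (Sys I (k + 1) j M R) (es θ I)
      (Real.exp (2 * kap θ) * ((k + 3) * (M + 2) ^ 3 : ℕ) * G + G * G') := by
  have h1 := h.transfer (X := Sys I (k + 1) j M R \ Apart) (f := es θ I)
    (fan_dec (Finset.range (k + 3) ×ˢ Finset.range (M + 2) ×ˢ Finset.range (M + 2) ×ˢ
      Finset.range (M + 2)) dec) (Real.exp_pos (2 * kap θ)).le (fun y => (es_pos θ I y).le)
    fun x hx => touch θ hx.1 hM hR hx.2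
  have h2 := (h.prod h' (fun y => (es_pos θ I y).le) fun y => (ep_pos θ _ y).le).transfer
    (X := Sys I (k + 1) j M R ∩ Apart) (f := es θ I)
    (fan_fun fun y : Sy × List P => ((y.1.1, y.2 :: y.1.2) : Sy)) zero_le_one
    (fun y => (mul_pos (es_pos θ I _) (ep_pos θ _ _)).le) fun x hx => apart θ hx.1 hM hR hR' hx.2
  refine (h1.union h2).mono (fun x hx => ?_) (fun _ _ => le_rfl) (le_of_eq ?_)
  · by_cases hA : x ∈ Apart
    · exact Or.inr ⟨hx, hA⟩
    · exact Or.inl ⟨hx, hA⟩
  · simp only [Finset.card_product, Finset.card_range]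
    push_cast
    ring

end Merge

theorem merge : MergeStmt := by
  intro θ I C hC h0 h1 k
  induction k with
  | zero =>
    intro j a ρ δ hρ hδ
    filter_upwards [h1 j a ρ δ hρ hδ] with n hn using Merge.base θ I hn
  | succ k ih =>
    intro j a ρ δ hρ hδ
    have hη : 0 < δ / (4 * (C + 1)) := by positivity
    have hCη : C * (δ / (4 * (C + 1))) ≤ δ / 4 := by
      rw [← mul_div_assoc, div_le_div_iff₀ (by positivity) (by positivity)]
      nlinarith
    generalize δ / (4 * (C + 1)) = η at hη hCη
    have hδ4 : 0 < δ / 4 := by positivity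
    filter_upwards [ih (j + 2) (a + 1) (ρ + η) (δ / 4) (by positivity) hδ4,
      h0 j a (a + 1) (δ / 4) (by positivity) hδ4,
      ev_poly (Real.exp (2 * kap θ) * (k + 3)) (a + 2) 3 hδ4, ev_poly 2 0 0 hδ4,
      eventually_ge_atTop 2, (tendsto_natCast_atTop_atTop (R := ℝ)).eventually_ge_atTop (2 / η)]
      with n e1 e2 e3 e4 e5 e6
    have hn : (0 : ℝ) ≤ n := by positivity
    rw [div_le_iff₀ hη] at e6
    have h2 := Merge.step θ I (k := k) (j := j) (M := a * n) (R := ρ * n) (by nlinarith)
      (by nlinarith) (by push_cast; nlinarith) e1 e2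
    refine h2.mono subset_rfl (fun _ _ => le_rfl) ?_
    have h3 : Real.exp (2 * kap θ) * ((k + 3) * (a * n + 2) ^ 3 : ℕ) ≤ Real.exp (δ / 4 * n) := by
      refine le_trans ?_ e3
      rw [mul_assoc]
      refine mul_le_mul_of_nonneg_left ?_ (Real.exp_pos _).le
      have : (k + 3) * (a * n + 2) ^ 3 ≤ (k + 3) * ((a + 2) * n + (a + 2)) ^ 3 :=
        Nat.mul_le_mul_left _ (Nat.pow_le_pow_left (by nlinarith) _)
      exact_mod_cast this
    rw [zero_mul, zero_add]
    simp only [pow_zero, mul_one] at e4
    have h4 : Real.exp ((C * (ρ + η) + δ / 4) * n) * Real.exp (δ / 4 * n) *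
        Real.exp (δ / 4 * n) ≤ Real.exp ((C * ρ + δ) * n) := by
      rw [← Real.exp_add, ← Real.exp_add, Real.exp_le_exp]
      nlinarith
    have h5 := Real.exp_pos ((C * (ρ + η) + δ / 4) * n)
    have h6 := Real.exp_pos (δ / 4 * n)
    generalize Real.exp ((C * (ρ + η) + δ / 4) * n) = G at *
    generalize Real.exp (δ / 4 * n) = E at *
    have h7 := mul_le_mul_of_nonneg_right h3 h5.le
    have h8 := mul_le_mul_of_nonneg_left e4 (mul_pos h5 h6).le
    nlinarith

end Pool.Agent.MP_7b45f6_mp.H32
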